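import Pool.Agent.H595Z.FPDefs

set_option autoImplicit false

namespace Pool.Agent.H626Z.FreeMAP

open Pool.Agent.H595Z.FP

/-- The Lipschitz free `p`-space over `M` with base point `x0` has the metric approximation
property: on every compact set the identity is uniformly approximated by finite-rank linear
operators of norm at most one. -/
def HasMAP {M : Type*} [MetricSpace M] (p : ℝ) (x0 : M) : Prop :=
  ∀ C : Set (Free p x0), IsCompact C → ∀ ε : ℝ, 0 < ε →
    ∃ T : Free p x0 →ₗ[ℝ] Free p x0, FiniteDimensional ℝ (LinearMap.range T) ∧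
      (∀ v, pNorm p x0 (T v) ≤ pNorm p x0 v) ∧ ∀ v ∈ C, pNorm p x0 (T v - v) ≤ ε

end Pool.Agent.H626Z.FreeMAP
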