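import Pool.Agent.H626Z.FreeMAP.Defs
import Pool.Agent.H595Z.FPExt

set_option autoImplicit false
set_option maxHeartbeats 400000

namespace Pool.Agent.H626Z.FreeMAP

open Pool.Agent.H595Z.FP Set Metric Filter Topology

variable {M : Type*} [MetricSpace M]

/-- almost contractive finite-rank maps on `N` fixing finite sets -/
def PP (p : ℝ) (x0 : M) (N : Set M) : Prop :=
  ∀ F : Set M, F.Finite → ∀ L : ℝ, 1 < L → ∃ f : M → Free p x0,
    (∃ E : Set (Free p x0), E.Finite ∧ ∀ x ∈ N ∪ F, f x ∈ Submodule.span ℝ E) ∧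
    (∀ x ∈ N ∪ F, ∀ y ∈ N ∪ F, ‖f x - f y‖ ≤ L * dist x y ^ p) ∧ ∀ x ∈ F, f x = delta p x0 x

variable {p : ℝ} {x0 : M}

lemma PP.mono {N N' : Set M} (h : PP p x0 N) (hs : N' ⊆ N) : PP p x0 N' := by
  intro F hF L hL
  obtain ⟨f, ⟨E, hE, h1⟩, h2, h3⟩ := h F hF L hL
  have : N' ∪ F ⊆ N ∪ F := union_subset_union_left _ hs
  exact ⟨f, ⟨E, hE, fun x hx => h1 x (this hx)⟩, fun x hx y hy => h2 x (this hx) y (this hy), h3⟩

lemma PP_empty : PP p x0 ∅ := by
  intro F hF L hL
  refine ⟨delta p x0, ⟨_, hF.image (delta p x0), fun x hx => Submodule.subset_span ?_⟩,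
    fun x _ y _ => (norm_delta_sub p x0 x y).trans ?_, fun _ _ => rfl⟩
  · exact mem_image_of_mem _ (by simpa using hx)
  · exact le_mul_of_one_le_left (by positivity) hL.le

lemma log_max_le {ρ s t : ℝ} (hρ : 0 < ρ) (ht : 0 ≤ t) (hts : t ≤ s) :
    0 ≤ Real.log (max s ρ) - Real.log (max t ρ) ∧
      (Real.log (max s ρ) - Real.log (max t ρ)) * max t ρ ≤ s - t := by
  have h1 : 0 < max t ρ := lt_max_of_lt_right hρ
  have h2 : max t ρ ≤ max s ρ := max_le_max_right _ hts
  refine ⟨sub_nonneg.2 (Real.log_le_log h1 h2), ?_⟩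
  rw [← Real.log_div (h1.trans_le h2).ne' h1.ne']
  have h3 := Real.log_le_sub_one_of_pos (div_pos (h1.trans_le h2) h1)
  have h4 : max s ρ - max t ρ ≤ s - t := by
    rcases le_total s ρ with h | h
    · rw [max_eq_right h, max_eq_right (hts.trans h)]; linarith
    · rw [max_eq_left h]; linarith [le_max_left t ρ]
  calc _ ≤ (max s ρ / max t ρ - 1) * max t ρ := mul_le_mul_of_nonneg_right h3 h1.le
    _ = max s ρ - max t ρ := by field_simp
    _ ≤ _ := h4

lemma two_terms (hp : 0 < p) {u v : Free p x0} {a b L D t η : ℝ} (hL : 0 ≤ L) (hD : 0 ≤ D)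
    (ht : 0 ≤ t) (hη : 0 ≤ η) (ha : |a| ≤ 1) (hb : |b| * t ≤ η * D) (hu : ‖u‖ ≤ L * D ^ p)
    (hv : ‖v‖ ≤ L * t ^ p) : ‖a • u + b • v‖ ≤ L * (1 + η ^ p) * D ^ p := by
  have h1 : ‖a • u‖ ≤ L * D ^ p := by
    refine (norm_smul_le_free p x0 a u).trans ?_
    have : |a| ^ p ≤ 1 := Real.rpow_le_one (abs_nonneg _) ha hp.le
    calc _ ≤ 1 * ‖u‖ := mul_le_mul_of_nonneg_right this (norm_nonneg _)
      _ ≤ _ := by rwa [one_mul]
  have h2 : ‖b • v‖ ≤ L * (η ^ p * D ^ p) := by
    refine (norm_smul_le_free p x0 b v).trans ?_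
    calc _ ≤ |b| ^ p * (L * t ^ p) := mul_le_mul_of_nonneg_left hv (by positivity)
      _ = L * (|b| * t) ^ p := by rw [Real.mul_rpow (abs_nonneg _) ht]; ring
      _ ≤ L * (η * D) ^ p :=
          mul_le_mul_of_nonneg_left (Real.rpow_le_rpow (by positivity) hb hp.le) hL
      _ = _ := by rw [Real.mul_rpow hη hD]
  refine (norm_add_le _ _).trans ?_
  linarith

lemma exists_consts (hp : 0 < p) {L : ℝ} (hL : 1 < L) : ∃ L1 ε η : ℝ, 1 < L1 ∧ 0 < ε ∧ 0 < η ∧
    L1 * (1 + ε) ≤ L ∧ η ^ p ≤ ε ∧ η * (1 + ε) ≤ ε := by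
  refine ⟨(1 + L) / 2, (L - 1) / (1 + L), min (((L - 1) / (1 + L)) ^ (1 / p))
    (((L - 1) / (1 + L)) / (1 + (L - 1) / (1 + L))), by linarith, ?_, ?_, ?_, ?_, ?_⟩
  · exact div_pos (by linarith) (by linarith)
  · have : 0 < (L - 1) / (1 + L) := div_pos (by linarith) (by linarith)
    exact lt_min (by positivity) (by positivity)
  · apply le_of_eq
    field_simp
    ring
  · have h : 0 < (L - 1) / (1 + L) := div_pos (by linarith) (by linarith)
    refine (Real.rpow_le_rpow (le_min (by positivity) (by positivity)) (min_le_left _ _)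
      hp.le).trans_eq ?_
    rw [← Real.rpow_mul h.le, one_div_mul_cancel hp.ne', Real.rpow_one]
  · have h : 0 < (L - 1) / (1 + L) := div_pos (by linarith) (by linarith)
    rw [← le_div_iff₀ (by positivity)]
    exact min_le_right _ _

lemma cut_point (hp : 0 < p) (hp1 : p ≤ 1) {N : Set M} (a : M)
    (h : ∀ ρ, 0 < ρ → PP p x0 (N \ ball a ρ)) : PP p x0 N := by
  intro F hF L hL
  obtain ⟨L1, ε, η, hL1, hε, hη, c1, c2, c3⟩ := exists_consts hp hL
  obtain ⟨r, hr, hrF⟩ : ∃ r, 0 < r ∧ ∀ x ∈ F, x ≠ a → r ≤ dist x a := by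
    have hc : IsClosed (F \ {a}) := (hF.subset diff_subset).isClosed
    obtain ⟨r, hr, hb⟩ := Metric.isOpen_iff.1 hc.isOpen_compl a (by simp)
    refine ⟨r, hr, fun x hx hxa => ?_⟩
    by_contra hlt
    exact hb (mem_ball.2 (not_le.1 hlt)) ⟨hx, hxa⟩
  set ρ := r * Real.exp (-(1 / η)) with hρ
  have hρ0 : 0 < ρ := by positivity
  obtain ⟨f, ⟨E, hE, h1⟩, h2, h3⟩ := h ρ hρ0 (insert a F) (hF.insert a) L1 hL1
  let w : M → ℝ := fun x => min 1 (η * (Real.log (max (dist x a) ρ) - Real.log ρ))
  have hin : ∀ x ∈ N ∪ F, ρ ≤ dist x a → x ∈ (N \ ball a ρ) ∪ insert a F := by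
    rintro x (hx | hx) hd
    · exact Or.inl ⟨hx, fun h' => absurd (mem_ball.1 h') (not_lt.2 hd)⟩
    · exact Or.inr (mem_insert_of_mem _ hx)
  have ha : a ∈ (N \ ball a ρ) ∪ insert a F := Or.inr (mem_insert _ _)
  have w0 : ∀ x, dist x a ≤ ρ → w x = 0 := fun x hx => by
    simp only [w, max_eq_right hx, sub_self, mul_zero]
    exact min_eq_right zero_le_one
  have wnn : ∀ x, 0 ≤ w x := fun x => le_min zero_le_one (mul_nonneg hη.le
    (sub_nonneg.2 (Real.log_le_log hρ0 (le_max_right _ _))))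
  have wle : ∀ x, w x ≤ 1 := fun x => min_le_left _ _
  have w1 : ∀ x, r ≤ dist x a → w x = 1 := fun x hx => by
    apply min_eq_left
    have e : Real.log ρ = Real.log r - 1 / η := by
      rw [hρ, Real.log_mul hr.ne' (Real.exp_pos _).ne', Real.log_exp]; ring
    have : Real.log r ≤ Real.log (max (dist x a) ρ) :=
      Real.log_le_log hr (hx.trans (le_max_left _ _))
    rw [e]
    have e2 : η * (1 / η) = 1 := by field_simp
    nlinarith
  have wlip : ∀ x y, dist y a ≤ dist x a → |w x - w y| * max (dist y a) ρ ≤ η * dist x y := by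
    intro x y hxy
    obtain ⟨b1, b2⟩ := log_max_le hρ0 dist_nonneg hxy
    have b3 : |w x - w y| ≤ η * (Real.log (max (dist x a) ρ) - Real.log (max (dist y a) ρ)) := by
      refine (abs_min_sub_min_le_max _ _ _ _).trans (max_le (by simpa using mul_nonneg hη.le b1) ?_)
      rw [← mul_sub, abs_mul, abs_of_pos hη, sub_sub_sub_cancel_right, abs_of_nonneg b1]
    have b4 : dist x a - dist y a ≤ dist x y := by linarith [dist_triangle x y a]
    have b5 : 0 ≤ max (dist y a) ρ := le_max_of_le_right hρ0.le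
    calc _ ≤ η * (Real.log (max (dist x a) ρ) - Real.log (max (dist y a) ρ)) * max (dist y a) ρ :=
          mul_le_mul_of_nonneg_right b3 b5
      _ ≤ η * dist x y := by
          rw [mul_assoc]; exact mul_le_mul_of_nonneg_left (b2.trans b4) hη.le
  have key : ∀ x ∈ N ∪ F, ∀ y ∈ N ∪ F, dist y a ≤ dist x a →
      ‖(f a + w x • (f x - f a)) - (f a + w y • (f y - f a))‖ ≤ L * dist x y ^ p := by
    intro x hx y hy hxy
    have hD : 0 ≤ dist x y ^ p := by positivity
    by_cases hy' : ρ ≤ dist y a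
    · have e : (f a + w x • (f x - f a)) - (f a + w y • (f y - f a)) =
          w x • (f x - f y) + (w x - w y) • (f y - f a) := by module
      rw [e]
      refine (two_terms hp (by linarith) dist_nonneg dist_nonneg hη.le
        (by rw [abs_of_nonneg (wnn x)]; exact wle x)
        ((mul_le_mul_of_nonneg_left (le_max_left _ _) (abs_nonneg _)).trans (wlip x y hxy))
        (h2 x (hin x hx (hy'.trans hxy)) y (hin y hy hy')) (h2 y (hin y hy hy') a ha)).trans ?_
      refine mul_le_mul_of_nonneg_right ?_ hD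
      nlinarith
    · push Not at hy'
      rw [w0 y hy'.le]
      by_cases hx' : ρ ≤ dist x a
      · have e : (f a + w x • (f x - f a)) - (f a + (0 : ℝ) • (f y - f a)) =
            w x • (f x - f a) := by module
        rw [e]
        have b1 : w x * dist x a ≤ (1 + ε) * dist x y := by
          have b2 : dist x a - ρ ≤ dist x y := by linarith [dist_triangle x y a]
          by_cases hs : ρ * (1 + ε) ≤ ε * dist x a
          · have : dist x a ≤ (1 + ε) * dist x y := by nlinarith
            nlinarith [wle x, wnn x, dist_nonneg (x := x) (y := a)]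
          · push Not at hs
            have b3 := wlip x y hxy
            rw [w0 y hy'.le, sub_zero, abs_of_nonneg (wnn x), max_eq_right hy'.le] at b3
            have b4 : ε * (w x * dist x a) ≤ ε * dist x y := by
              calc ε * (w x * dist x a) = w x * (ε * dist x a) := by ring
                _ ≤ w x * (ρ * (1 + ε)) := mul_le_mul_of_nonneg_left hs.le (wnn x)
                _ = (w x * ρ) * (1 + ε) := by ring
                _ ≤ (η * dist x y) * (1 + ε) := mul_le_mul_of_nonneg_right b3 (by linarith)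
                _ = (η * (1 + ε)) * dist x y := by ring
                _ ≤ _ := mul_le_mul_of_nonneg_right c3 dist_nonneg
            have b5 := le_of_mul_le_mul_left b4 hε
            nlinarith [dist_nonneg (x := x) (y := y)]
        refine (norm_smul_le_free p x0 _ _).trans ?_
        calc _ ≤ |w x| ^ p * (L1 * dist x a ^ p) :=
              mul_le_mul_of_nonneg_left (h2 x (hin x hx hx') a ha) (by positivity)
          _ = L1 * (w x * dist x a) ^ p := by
              rw [abs_of_nonneg (wnn x), Real.mul_rpow (wnn x) dist_nonneg]; ring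
          _ ≤ L1 * ((1 + ε) * dist x y) ^ p := mul_le_mul_of_nonneg_left
              (Real.rpow_le_rpow (mul_nonneg (wnn x) dist_nonneg) b1 hp.le) (by linarith)
          _ = L1 * (1 + ε) ^ p * dist x y ^ p := by
              rw [Real.mul_rpow (by linarith) dist_nonneg]; ring
          _ ≤ _ := by
              refine mul_le_mul_of_nonneg_right ?_ hD
              have : (1 + ε) ^ p ≤ 1 + ε := by
                simpa using Real.rpow_le_rpow_of_exponent_le (by linarith : 1 ≤ 1 + ε) hp1
              nlinarith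
      · push Not at hx'
        rw [w0 x hx'.le]
        simp only [zero_smul, sub_self, norm_zero]
        positivity
  refine ⟨fun x => f a + w x • (f x - f a), ⟨E, hE, fun x hx => ?_⟩, fun x hx y hy => ?_,
    fun x hx => ?_⟩
  · by_cases hx' : ρ ≤ dist x a
    · exact Submodule.add_mem _ (h1 a ha) (Submodule.smul_mem _ _
        (Submodule.sub_mem _ (h1 x (hin x hx hx')) (h1 a ha)))
    · simp only [w0 x (not_le.1 hx').le, zero_smul, add_zero]
      exact h1 a ha
  · rcases le_total (dist y a) (dist x a) with h | h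
    · exact key x hx y hy h
    · rw [norm_sub_rev, dist_comm]
      exact key y hy x hx h
  · by_cases hxa : x = a
    · subst hxa
      simp [h3 x (mem_insert _ _)]
    · simp [w1 x (hrF x hx hxa), h3 x (mem_insert_of_mem _ hx)]

lemma cut_infinity (hp : 0 < p) (h : ∀ R, PP p x0 (closedBall x0 R)) : PP p x0 univ := by
  intro F hF L hL
  obtain ⟨L1, ε, η, hL1, hε, hη, c1, c2, c3⟩ := exists_consts hp hL
  obtain ⟨r, hr, hrF⟩ : ∃ r, 0 < r ∧ ∀ x ∈ F, dist x x0 ≤ r := by
    obtain ⟨r, hr, h⟩ := hF.isBounded.subset_closedBall_lt 0 x0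
    exact ⟨r, hr, fun x hx => h hx⟩
  set R := r * Real.exp (1 / η) with hR
  obtain ⟨f, ⟨E, hE, h1⟩, h2, h3⟩ := h R (insert x0 F) (hF.insert x0) L1 hL1
  have f0 : f x0 = 0 := by rw [h3 x0 (mem_insert _ _), delta_base]
  let w : M → ℝ := fun x => max 0 (1 - η * (Real.log (max (dist x x0) r) - Real.log r))
  have hin : ∀ x, dist x x0 ≤ R → x ∈ closedBall x0 R ∪ insert x0 F := fun x hd => Or.inl hd
  have ha : x0 ∈ closedBall x0 R ∪ insert x0 F := Or.inr (mem_insert _ _)
  have w1 : ∀ x, dist x x0 ≤ r → w x = 1 := fun x hx => by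
    simp only [w, max_eq_right hx, sub_self, mul_zero, sub_zero]
    exact max_eq_right zero_le_one
  have wnn : ∀ x, 0 ≤ w x := fun x => le_max_left _ _
  have wle : ∀ x, w x ≤ 1 := fun x => max_le zero_le_one (by
    have := mul_nonneg hη.le (sub_nonneg.2 (Real.log_le_log hr (le_max_right (dist x x0) r)))
    linarith)
  have w0 : ∀ x, R ≤ dist x x0 → w x = 0 := fun x hx => by
    apply max_eq_left
    have e : Real.log R = Real.log r + 1 / η := by
      rw [hR, Real.log_mul hr.ne' (Real.exp_pos _).ne', Real.log_exp]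
    have : Real.log R ≤ Real.log (max (dist x x0) r) :=
      Real.log_le_log (by positivity) (hx.trans (le_max_left _ _))
    rw [e] at this
    have e2 : η * (1 / η) = 1 := by field_simp
    nlinarith
  have wlip : ∀ x y, dist y x0 ≤ dist x x0 → |w x - w y| * dist y x0 ≤ η * dist x y := by
    intro x y hxy
    obtain ⟨b1, b2⟩ := log_max_le hr dist_nonneg hxy
    have b3 : |w x - w y| ≤ η * (Real.log (max (dist x x0) r) - Real.log (max (dist y x0) r)) := by
      refine (abs_max_sub_max_le_max _ _ _ _).trans (max_le (by simpa using mul_nonneg hη.le b1) ?_)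
      rw [sub_sub_sub_cancel_left, ← mul_sub, abs_mul, abs_of_pos hη, sub_sub_sub_cancel_right,
        abs_sub_comm, abs_of_nonneg b1]
    have b4 : dist x x0 - dist y x0 ≤ dist x y := by linarith [dist_triangle x y x0]
    calc _ ≤ η * (Real.log (max (dist x x0) r) - Real.log (max (dist y x0) r)) *
            max (dist y x0) r :=
          mul_le_mul b3 (le_max_left _ _) dist_nonneg (mul_nonneg hη.le b1)
      _ ≤ η * dist x y := by
          rw [mul_assoc]; exact mul_le_mul_of_nonneg_left (b2.trans b4) hη.le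
  have key : ∀ x y, dist y x0 ≤ dist x x0 → ‖w x • f x - w y • f y‖ ≤ L * dist x y ^ p := by
    intro x y hxy
    have hD : 0 ≤ dist x y ^ p := by positivity
    by_cases hy' : dist y x0 ≤ R
    · have hv : ‖f y‖ ≤ L1 * dist y x0 ^ p := by simpa [f0] using h2 y (hin y hy') x0 ha
      have fin : L1 * (1 + η ^ p) * dist x y ^ p ≤ L * dist x y ^ p := by
        refine mul_le_mul_of_nonneg_right ?_ hD
        nlinarith
      by_cases hx' : dist x x0 ≤ R
      · have e : w x • f x - w y • f y = w x • (f x - f y) + (w x - w y) • f y := by module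
        rw [e]
        exact (two_terms hp (by linarith) dist_nonneg dist_nonneg hη.le
          (by rw [abs_of_nonneg (wnn x)]; exact wle x) (wlip x y hxy)
          (h2 x (hin x hx') y (hin y hy')) hv).trans fin
      · have e : w x • f x - w y • f y = (0 : ℝ) • (0 : Free p x0) + (w x - w y) • f y := by
          rw [w0 x (not_le.1 hx').le]; module
        rw [e]
        exact (two_terms hp (by linarith) dist_nonneg dist_nonneg hη.le
          (by simp) (wlip x y hxy) (by rw [norm_zero]; positivity) hv).trans fin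
    · push Not at hy'
      rw [w0 y hy'.le, w0 x (hy'.le.trans hxy)]
      simp only [zero_smul, sub_self, norm_zero]
      positivity
  refine ⟨fun x => w x • f x, ⟨E, hE, fun x _ => ?_⟩, fun x _ y _ => ?_, fun x hx => ?_⟩
  · by_cases hx' : dist x x0 ≤ R
    · exact Submodule.smul_mem _ _ (h1 x (hin x hx'))
    · simp only [w0 x (not_le.1 hx').le, zero_smul]
      exact Submodule.zero_mem _
  · rcases le_total (dist y x0) (dist x x0) with h | h
    · exact key x y h
    · rw [norm_sub_rev, dist_comm]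
      exact key y x h
  · simp [w1 x (hrF x hx), h3 x (mem_insert_of_mem _ hx)]

theorem PP_univ [ProperSpace M] [Countable M] (hp : 0 < p) (hp1 : p ≤ 1) : PP p x0 univ := by
  let J : Set M → Prop := fun C => ∀ N, PP p x0 N → PP p x0 (N ∪ C)
  have Jmono : ∀ C C', C' ⊆ C → J C → J C' := fun C C' h hC N hN =>
    (hC N hN).mono (union_subset_union_right _ h)
  have Junion : ∀ C C', J C → J C' → J (C ∪ C') := fun C C' h h' N hN => by
    rw [← union_assoc]; exact h' _ (h N hN)
  have Jcut : ∀ C a, (∀ ρ, 0 < ρ → J (C \ ball a ρ)) → J C := fun C a h N hN =>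
    cut_point hp hp1 a fun ρ hρ => (h ρ hρ N hN).mono (by
      rintro x ⟨hx | hx, hx'⟩
      · exact Or.inl hx
      · exact Or.inr ⟨hx, hx'⟩)
  let U : Set M := {x | ∃ r, 0 < r ∧ J (ball x r)}
  have hU : IsOpen U := by
    refine Metric.isOpen_iff.2 fun x ⟨r, hr, hJ⟩ => ⟨r, hr, fun y hy => ?_⟩
    obtain ⟨s, hs, hsub⟩ := Metric.isOpen_iff.1 isOpen_ball y hy
    exact ⟨s, hs, Jmono _ _ hsub hJ⟩
  have Jcomp : ∀ K, IsCompact K → K ⊆ U → J K := by
    intro K hK hKU
    refine hK.induction_on (p := J) (fun N hN => by simpa using hN)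
      (fun s t hst ht => Jmono _ _ hst ht) (fun s t hs ht => Junion _ _ hs ht) fun x hx => ?_
    obtain ⟨r, hr, hJ⟩ := hKU hx
    exact ⟨ball x r, mem_nhdsWithin_of_mem_nhds (ball_mem_nhds x hr), hJ⟩
  have hall : ∀ x, x ∈ U := by
    by_contra hne
    push Not at hne
    obtain ⟨z, hz⟩ := hne
    have hZ : IsClosed Uᶜ := hU.isClosed_compl
    have : CompleteSpace (Uᶜ : Set M) := hZ.completeSpace_coe
    have : Nonempty (Uᶜ : Set M) := ⟨⟨z, hz⟩⟩
    obtain ⟨a, b, hb⟩ := nonempty_interior_of_iUnion_of_closed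
      (f := fun a : (Uᶜ : Set M) => ({a} : Set (Uᶜ : Set M))) (fun _ => isClosed_singleton)
      (iUnion_of_singleton _)
    have hba : b = a := Set.mem_singleton_iff.1 (interior_subset hb)
    subst hba
    obtain ⟨r, hr, hsub⟩ := Metric.mem_nhds_iff.1 (mem_interior_iff_mem_nhds.1 hb)
    apply b.2
    refine ⟨r / 2, by positivity, Jmono _ _ ball_subset_closedBall (Jcut _ b.1 fun ρ hρ => ?_)⟩
    refine Jcomp _ ((isCompact_closedBall _ _).diff isOpen_ball) ?_
    rintro y ⟨hy1, hy2⟩
    by_contra hyU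
    have : (⟨y, hyU⟩ : (Uᶜ : Set M)) ∈ ball b r := by
      rw [mem_ball, Subtype.dist_eq]
      have := mem_closedBall.1 hy1
      linarith
    have h2 : (⟨y, hyU⟩ : (Uᶜ : Set M)) = b := hsub this
    apply hy2
    rw [← h2]
    exact mem_ball_self hρ
  refine cut_infinity hp fun R => ?_
  simpa using Jcomp _ (isCompact_closedBall x0 R) (fun x _ => hall x) ∅ PP_empty

lemma continuousSMul_free (hp : 0 < p) : ContinuousSMul ℝ (Free p x0) := by
  refine ContinuousSMul.of_nhds_zero ?_ ?_ ?_
  · rw [tendsto_zero_iff_norm_tendsto_zero]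
    refine squeeze_zero (fun _ => norm_nonneg _) (fun q => norm_smul_le_free p x0 q.1 q.2) ?_
    have h1 : Tendsto (fun q : ℝ × Free p x0 => |q.1| ^ p) (𝓝 0 ×ˢ 𝓝 0) (𝓝 (|(0 : ℝ)| ^ p)) :=
      (((continuous_abs.rpow_const fun _ => Or.inr hp.le).tendsto 0)).comp tendsto_fst
    have h2 : Tendsto (fun q : ℝ × Free p x0 => ‖q.2‖) (𝓝 0 ×ˢ 𝓝 0) (𝓝 ‖(0 : Free p x0)‖) :=
      (continuous_norm.tendsto 0).comp tendsto_snd
    simpa using h1.mul h2
  · intro m
    rw [tendsto_zero_iff_norm_tendsto_zero]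
    refine squeeze_zero (fun _ => norm_nonneg _) (fun q => norm_smul_le_free p x0 q m) ?_
    have h1 : Tendsto (fun q : ℝ => |q| ^ p) (𝓝 0) (𝓝 (|(0 : ℝ)| ^ p)) :=
      ((continuous_abs.rpow_const fun _ => Or.inr hp.le).tendsto 0)
    simpa [Real.zero_rpow hp.ne'] using h1.mul_const ‖m‖
  · intro a
    simpa using (continuous_const_smul (T := Free p x0) a).tendsto 0

theorem hasMAP [ProperSpace M] [Countable M] (hp : 0 < p) (hp1 : p ≤ 1) : HasMAP p x0 := by
  intro C hC ε hε
  have := continuousSMul_free (x0 := x0) hp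
  set η := ε ^ p / 3 with hη
  have hη0 : 0 < η := by positivity
  have hdense : ∀ v : Free p x0, ∃ l : List (ℝ × M × M),
      dist v ((val p x0 l : Pre p x0) : Free p x0) < η := by
    intro v
    obtain ⟨u, hu⟩ := (UniformSpace.Completion.denseRange_coe (α := Pre p x0)).exists_dist_lt v hη0
    obtain ⟨l, rfl⟩ := exists_val p x0 u
    exact ⟨l, hu⟩
  obtain ⟨S, hS⟩ := hC.elim_finite_subcover
    (fun l : List (ℝ × M × M) => ball ((val p x0 l : Pre p x0) : Free p x0) η)
    (fun _ => isOpen_ball) (fun v _ => by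
      obtain ⟨l, hl⟩ := hdense v
      exact mem_iUnion.2 ⟨l, hl⟩)
  let F : Set M := insert x0 (⋃ l ∈ S, ((fun t : ℝ × M × M => t.2.1) '' {t | t ∈ l} ∪
    (fun t : ℝ × M × M => t.2.2) '' {t | t ∈ l}))
  have hF : F.Finite := (S.finite_toSet.biUnion fun l _ =>
    ((List.finite_toSet l).image _).union ((List.finite_toSet l).image _)).insert _
  let B : ℝ := ∑ l ∈ S, ‖((val p x0 l : Pre p x0) : Free p x0)‖
  have hB : 0 ≤ B := Finset.sum_nonneg fun _ _ => norm_nonneg _
  set μ := min (1 / 2) ((η / (B + 1)) ^ (1 / p)) with hμ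
  have hμ0 : 0 < μ := lt_min (by norm_num) (by positivity)
  have hμ1 : μ ≤ 1 / 2 := min_le_left _ _
  have hμ2 : μ ^ p ≤ η / (B + 1) := by
    refine (Real.rpow_le_rpow hμ0.le (min_le_right _ _) hp.le).trans_eq ?_
    rw [← Real.rpow_mul (by positivity), one_div_mul_cancel hp.ne', Real.rpow_one]
  have hl0 : 0 < 1 - μ := by linarith
  have hl1 : (1 - μ) ^ p < 1 := Real.rpow_lt_one hl0.le (by linarith) hp
  have hl2 : 0 < (1 - μ) ^ p := by positivity
  obtain ⟨f, ⟨E, hE, h1⟩, h2, h3⟩ := PP_univ (x0 := x0) hp hp1 F hF (((1 - μ) ^ p)⁻¹)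
    ((one_lt_inv₀ hl2).2 hl1)
  obtain ⟨T, hTc, hTd, hTb⟩ := exists_ext1 p x0 (norm_smul_le_free p x0) f
    (by rw [h3 x0 (mem_insert _ _), delta_base]) _ (by positivity)
    (fun x y => h2 x (Or.inl trivial) y (Or.inl trivial))
  have hcontr : ∀ v, ‖(1 - μ) • T v‖ ≤ ‖v‖ := fun v => by
    refine (norm_smul_le_free p x0 _ _).trans ?_
    rw [abs_of_pos hl0]
    calc _ ≤ (1 - μ) ^ p * (((1 - μ) ^ p)⁻¹ * ‖v‖) := mul_le_mul_of_nonneg_left (hTb v) hl2.le
      _ = _ := by field_simp
  have hfd : FiniteDimensional ℝ (Submodule.span ℝ E) := FiniteDimensional.span_of_finite ℝ hE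
  have hrange : ∀ v, T v ∈ Submodule.span ℝ E := by
    intro v
    induction v using UniformSpace.Completion.induction_on with
    | hp => exact (Submodule.closed_of_finiteDimensional (Submodule.span ℝ E)).preimage hTc
    | ih v =>
      obtain ⟨l, rfl⟩ := exists_val p x0 v
      rw [coe_val]
      induction l with
      | nil => simp
      | cons t l ih =>
        simp only [List.map_cons, List.sum_cons, map_add, map_smul, map_sub, hTd]
        exact Submodule.add_mem _ (Submodule.smul_mem _ _ (Submodule.sub_mem _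
          (h1 _ (Or.inl trivial)) (h1 _ (Or.inl trivial)))) ih
  have hfix : ∀ l : List (ℝ × M × M), (∀ t ∈ l, t.2.1 ∈ F ∧ t.2.2 ∈ F) →
      T ((val p x0 l : Pre p x0) : Free p x0) = ((val p x0 l : Pre p x0) : Free p x0) := by
    intro l hl
    rw [coe_val]
    induction l with
    | nil => simp
    | cons t l ih =>
      simp only [List.map_cons, List.sum_cons, map_add, map_smul, map_sub, hTd]
      rw [ih fun s hs => hl s (List.mem_cons_of_mem _ hs), h3 _ (hl t List.mem_cons_self).1,
        h3 _ (hl t List.mem_cons_self).2]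
  refine ⟨(1 - μ) • T, ?_, fun v => ?_, fun v hv => ?_⟩
  · refine Submodule.finiteDimensional_of_le (S₂ := Submodule.span ℝ E) ?_
    rintro _ ⟨v, rfl⟩
    exact Submodule.smul_mem _ _ (hrange v)
  · exact Real.rpow_le_rpow (norm_nonneg _) (hcontr v) (by positivity)
  · obtain ⟨l, hl, hvl⟩ := mem_iUnion₂.1 (hS hv)
    set u : Free p x0 := ((val p x0 l : Pre p x0) : Free p x0) with hu
    have hTu : T u = u := hfix l fun t ht =>
      ⟨mem_insert_of_mem _ (mem_iUnion₂.2 ⟨l, hl, Or.inl ⟨t, ht, rfl⟩⟩),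
        mem_insert_of_mem _ (mem_iUnion₂.2 ⟨l, hl, Or.inr ⟨t, ht, rfl⟩⟩)⟩
    have e : ((1 - μ) • T) v - v = (1 - μ) • T (v - u) + (-μ) • u + (u - v) := by
      rw [LinearMap.smul_apply, map_sub, hTu]; module
    have a1 : ‖v - u‖ < η := by rw [← dist_eq_norm]; exact hvl
    have a2 : ‖(-μ) • u‖ ≤ η := by
      refine (norm_smul_le_free p x0 _ _).trans ?_
      rw [abs_neg, abs_of_pos hμ0]
      have : ‖u‖ ≤ B := Finset.single_le_sum
        (f := fun l => ‖((val p x0 l : Pre p x0) : Free p x0)‖) (fun _ _ => norm_nonneg _) hl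
      calc _ ≤ η / (B + 1) * (B + 1) :=
            mul_le_mul hμ2 (by linarith) (norm_nonneg _) (by positivity)
        _ = η := by field_simp
    have a3 : ‖((1 - μ) • T) v - v‖ ≤ ε ^ p := by
      rw [e]
      refine (norm_add₃_le).trans ?_
      have := hcontr (v - u)
      rw [norm_sub_rev u v]
      linarith
    unfold pNorm
    refine (Real.rpow_le_rpow (norm_nonneg _) a3 (by positivity)).trans_eq ?_
    rw [← Real.rpow_mul hε.le, mul_one_div_cancel hp.ne', Real.rpow_one]

end Pool.Agent.H626Z.FreeMAP
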